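import Pool.Agent.Lib.lead.CXSat

namespace Pool.Agent.Results.MP_a6fa5c_lc.Hard
open Pool.Agent.Lib.CX

/-- the edge set `E = Fin n` (with `n` in unary) and a list of sequences of elements of `E` -/
abbrev Inst := {a : List Unit × List (List ℕ) // ∀ s ∈ a.2, ∀ e ∈ s, e < a.1.length}

/-- some finite simple graph has edge set `E` and every sequence is the edge sequence of a simple path -/
def Realisable (a : Inst) : Prop :=
  ∃ (V : Type) (_ : Finite V) (G : SimpleGraph V) (φ : Fin a.1.1.length ≃ G.edgeSet), ∀ s, ∀ hs : s ∈ a.1.2,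
    ∃ v : ℕ → V, Set.InjOn v (Set.Iic s.length) ∧
      ∀ i, ∀ hi : i < s.length, (φ ⟨s[i], a.2 s hs _ (List.getElem_mem hi)⟩).1 = s(v i, v (i + 1))

theorem of_nat (a : Inst) (K : ℕ) (A B : ℕ → ℕ) (h1 : ∀ e < a.1.1.length, A e < B e ∧ B e ≤ K)
    (h2 : ∀ e < a.1.1.length, ∀ d < a.1.1.length, A e = A d → B e = B d → e = d)
    (h3 : ∀ s ∈ a.1.2, ∃ v : ℕ → ℕ, (∀ i, v i ≤ K) ∧ (∀ i ≤ s.length, ∀ j ≤ s.length, v i = v j → i = j) ∧
      ∀ i < s.length, s(A (s.getD i 0), B (s.getD i 0)) = s(v i, v (i + 1))) : Realisable a := by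
  let c : ℕ → Fin (K + 1) := fun x => ⟨min x K, by omega⟩
  let ψ : Fin a.1.1.length → Sym2 (Fin (K + 1)) := fun e => s(c (A e), c (B e))
  have hψ : ∀ e, ψ e ∈ (SimpleGraph.fromEdgeSet (Set.range ψ)).edgeSet := fun e => by
    have := h1 e e.2
    rw [SimpleGraph.edgeSet_fromEdgeSet]
    refine ⟨⟨e, rfl⟩, ?_⟩
    simp [ψ, c]; omega
  refine ⟨_, inferInstance, .fromEdgeSet (Set.range ψ), Equiv.ofBijective (fun e => ⟨ψ e, hψ e⟩) ⟨fun e d h => ?_, ?_⟩,
    fun s hs => ?_⟩
  · have := h1 e e.2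
    have := h1 d d.2
    have := h2 e e.2 d d.2
    simp [ψ, c] at h
    ext; omega
  · rintro ⟨x, hx⟩
    rw [SimpleGraph.edgeSet_fromEdgeSet] at hx
    obtain ⟨⟨e, rfl⟩, -⟩ := hx
    exact ⟨e, rfl⟩
  · obtain ⟨v, v1, v2, v3⟩ := h3 s hs
    refine ⟨fun i => c (v i), fun i hi j hj h => v2 i hi j hj ?_, fun i hi => ?_⟩
    · have := v1 i; have := v1 j; simp [c] at h; omega
    · have := congrArg (Sym2.map c) (v3 i hi)
      rw [List.getD_eq_getElem _ _ hi] at this
      exact this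

def vr (φ : List (T3 ℕ)) (j i : ℕ) : ℕ := (φ.getD j (0, 0, 0)).vars.getD i 0 % (3 * φ.length)
def sq (φ : List (T3 ℕ)) (j i : ℕ) : List ℕ := [1 + 6 * φ.length + j, 1 + 3 * φ.length + (3 * j + i), 0, 1 + vr φ j i]
def red (φ : List (T3 ℕ)) : List Unit × List (List ℕ) :=
  (List.replicate (1 + 7 * φ.length) (), (List.range φ.length ×ˢ List.range 3).map fun p => sq φ p.1 p.2)

theorem mem_red {φ : List (T3 ℕ)} {s : List ℕ} : s ∈ (red φ).2 ↔ ∃ j < φ.length, ∃ i < 3, s = sq φ j i := by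
  simp only [red, List.mem_map, Prod.exists, List.mem_product, List.mem_range]
  exact ⟨fun ⟨j, i, h, e⟩ => ⟨j, h.1, i, h.2, e.symm⟩, fun ⟨j, h, i, h', e⟩ => ⟨j, i, ⟨h, h'⟩, e.symm⟩⟩

theorem vr_lt (φ : List (T3 ℕ)) {j : ℕ} (h : j < φ.length) (i : ℕ) : vr φ j i < 3 * φ.length :=
  Nat.mod_lt _ (by omega)

theorem valid (φ : List (T3 ℕ)) : ∀ s ∈ (red φ).2, ∀ e ∈ s, e < (red φ).1.length := by
  intro s hs e he
  obtain ⟨j, hj, i, hi, rfl⟩ := mem_red.1 hs
  have := vr_lt φ hj i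
  simp [red, sq] at he ⊢
  omega

theorem sat_iff (φ : List (T3 ℕ)) (hφ : ∀ C ∈ φ, C.dist ∧ ∀ x ∈ C.vars, x < 3 * φ.length) :
    SatR nae φ ↔ ∃ v : ℕ → Bool, ∀ j < φ.length, ¬ (v (vr φ j 0) = v (vr φ j 1) ∧ v (vr φ j 1) = v (vr φ j 2)) := by
  refine exists_congr fun v => ?_
  rw [List.forall_mem_iff_getElem]
  refine forall₂_congr fun j hj => ?_
  have := (hφ _ (List.getElem_mem hj)).2
  simp only [T3.vars, List.forall_mem_cons] at this
  simp [vr, nae, hj, T3.vars, Nat.mod_eq_of_lt this.1, Nat.mod_eq_of_lt this.2.1, Nat.mod_eq_of_lt this.2.2.1]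
  tauto

theorem key (φ : List (T3 ℕ)) (hφ : ∀ C ∈ φ, C.dist ∧ ∀ x ∈ C.vars, x < 3 * φ.length) :
    SatR nae φ ↔ Realisable ⟨red φ, valid φ⟩ := by
  rw [sat_iff φ hφ]
  have hl : (red φ).1.length = 1 + 7 * φ.length := by simp [red]
  constructor
  · rintro ⟨v, hv⟩
    let m := φ.length
    let b : ℕ → ℕ := fun x => (v x).toNat
    have hb : ∀ x, b x ≤ 1 := fun x => (v x).toNat_le
    let s : ℕ → ℕ → ℕ := fun j i => if i = 0 then 0 else if i = 1 ∧ b (vr φ j 0) ≠ b (vr φ j 1) then 0 else 1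
    have hs : ∀ j i, s j i ≤ 1 := fun j i => by simp only [s]; split_ifs <;> omega
    have hs2 : ∀ j < m, ∀ i < 3, ∀ k < 3, b (vr φ j i) = b (vr φ j k) → s j i = s j k → i = k := fun j hj i hi k hk => by
      have h4 : ¬ (b (vr φ j 0) = b (vr φ j 1) ∧ b (vr φ j 1) = b (vr φ j 2)) := fun h =>
        have inj : ∀ x y : Bool, x.toNat = y.toNat → x = y := by decide
        hv j hj ⟨inj _ _ h.1, inj _ _ h.2⟩
      have s0 : s j 0 = 0 := rfl
      have s2 : s j 2 = 1 := by simp [s]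
      have s1 : s j 1 = 0 ↔ b (vr φ j 0) ≠ b (vr φ j 1) := by simp [s]
      have := hs j 1
      interval_cases i <;> interval_cases k <;> omega
    let A : ℕ → ℕ := fun e => if e = 0 then 0 else if e ≤ 3 * m then b (e - 1) else if e ≤ 6 * m then
      1 - b (vr φ ((e - 1 - 3 * m) / 3) ((e - 1 - 3 * m) % 3)) else 2 + 3 * m + 2 * (e - 1 - 6 * m)
    let B : ℕ → ℕ := fun e => if e = 0 then 1 else if e ≤ 3 * m then 1 + e else if e ≤ 6 * m then
      2 + 3 * m + 2 * ((e - 1 - 3 * m) / 3) + s ((e - 1 - 3 * m) / 3) ((e - 1 - 3 * m) % 3)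
      else 3 + 3 * m + 2 * (e - 1 - 6 * m)
    refine of_nat _ (2 + 5 * m) A B (fun e he => ?_) (fun e he d hd => ?_) fun t ht => ?_
    · have := hb (e - 1)
      have := hs ((e - 1 - 3 * m) / 3) ((e - 1 - 3 * m) % 3)
      simp only [hl] at he
      simp only [A, B]
      split_ifs <;> omega
    · have := hs ((e - 1 - 3 * m) / 3) ((e - 1 - 3 * m) % 3)
      have := hs ((d - 1 - 3 * m) / 3) ((d - 1 - 3 * m) % 3)
      have := hb (e - 1)
      have := hb (d - 1)
      simp only [hl] at he hd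
      simp only [A, B]
      split_ifs <;> try omega
      intro e1 e2
      have e3 : (e - 1 - 3 * m) / 3 = (d - 1 - 3 * m) / 3 := by omega
      rw [e3] at e1 e2
      have := hb (vr φ ((d - 1 - 3 * m) / 3) ((e - 1 - 3 * m) % 3))
      have := hb (vr φ ((d - 1 - 3 * m) / 3) ((d - 1 - 3 * m) % 3))
      have := hs2 ((d - 1 - 3 * m) / 3) (by omega) ((e - 1 - 3 * m) % 3) (by omega) ((d - 1 - 3 * m) % 3) (by omega)
        (by omega) (by omega)
      omega
    · obtain ⟨j, hj, i, hi, rfl⟩ := mem_red.1 ht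
      have h1 := vr_lt φ hj i
      have h2 := hs j i
      have h3 := hb (vr φ j i)
      refine ⟨fun k => [3 + 3 * m + 2 * j - s j i, 2 + 3 * m + 2 * j + s j i, 1 - b (vr φ j i), b (vr φ j i),
        2 + vr φ j i].getD k 0, fun k => ?_, fun k hk l hl => ?_, fun k hk => ?_⟩
      · rcases k with _ | _ | _ | _ | _ | k <;> simp <;> omega
      · simp only [sq, List.length_cons, List.length_nil] at hk hl
        interval_cases k <;> interval_cases l <;> simp <;> omega
      · simp only [sq, List.length_cons, List.length_nil] at hk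
        have e1 : (1 + 3 * m + (3 * j + i) - 1 - 3 * m) / 3 = j := by omega
        have e2 : (1 + 3 * m + (3 * j + i) - 1 - 3 * m) % 3 = i := by omega
        interval_cases k <;> simp only [sq, List.getD_cons_zero, List.getD_cons_succ, A, B, Sym2.eq_iff]
        · split_ifs <;> omega
        · rw [if_neg (by omega), if_neg (by omega), if_pos (by omega), if_neg (by omega), if_neg (by omega),
            if_pos (by omega), e1, e2]
          exact .inr ⟨rfl, rfl⟩
        · simp; omega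
        · rw [if_neg (by omega), if_pos (by omega), if_neg (by omega), if_pos (by omega), Nat.add_sub_cancel_left]
          exact .inl ⟨rfl, by omega⟩
  · classical
    rintro ⟨V, _, G, e, h⟩
    let ψ : ℕ → Sym2 V := fun x => (e ⟨x % (red φ).1.length, Nat.mod_lt _ (by omega)⟩).1
    have hψ : ∀ x < 1 + 7 * φ.length, ∀ y < 1 + 7 * φ.length, ψ x = ψ y → x = y := fun x hx y hy h => by
      have := congrArg Fin.val (e.injective (Subtype.ext h))
      simpa [hl, Nat.mod_eq_of_lt hx, Nat.mod_eq_of_lt hy] using this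
    obtain ⟨L, hL⟩ : ∃ L, L ∈ ψ 0 := ⟨_, Sym2.out_fst_mem _⟩
    have H : ∀ j < φ.length, ∀ i < 3, ∃ x ∈ ψ (1 + 6 * φ.length + j), ∃ y ∈ ψ 0,
        ψ (1 + 3 * φ.length + (3 * j + i)) = s(x, y) ∧ (y = L ↔ L ∉ ψ (1 + vr φ j i)) := fun j hj i hi => by
      obtain ⟨w, w1, w2⟩ := h _ (mem_red.2 ⟨j, hj, i, hi, rfl⟩)
      have w3 : ∀ k < 4, ψ ((sq φ j i).getD k 0) = s(w k, w (k + 1)) := fun k hk => by
        rw [← w2 k hk, List.getD_eq_getElem _ _ hk]
        simp only [ψ]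
        congr 3
        exact Nat.mod_eq_of_lt (valid φ _ (mem_red.2 ⟨j, hj, i, hi, rfl⟩) _ (List.getElem_mem _))
      have a0 := w3 0 (by omega)
      have a1 := w3 1 (by omega)
      have a2 := w3 2 (by omega)
      have a3 := w3 3 (by omega)
      simp only [sq, List.getD_cons_zero, List.getD_cons_succ] at a0 a1 a2 a3
      have n1 : w 2 ≠ w 3 := fun h => by simpa using w1 (by simp [sq]) (by simp [sq]) h
      have n2 : w 2 ≠ w 4 := fun h => by simpa using w1 (by simp [sq]) (by simp [sq]) h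
      refine ⟨w 1, by simp [a0], w 2, by simp [a2], a1, ?_⟩
      rw [a2, Sym2.mem_iff] at hL
      rw [a3]
      rcases hL with rfl | rfl <;> simp [n1, n2]
    refine ⟨fun x => decide (L ∈ ψ (1 + x)), fun j hj ⟨e1, e2⟩ => ?_⟩
    obtain ⟨x0, a0, y0, b0, c0, d0⟩ := H j hj 0 (by omega)
    obtain ⟨x1, a1, y1, b1, c1, d1⟩ := H j hj 1 (by omega)
    obtain ⟨x2, a2, y2, b2, c2, d2⟩ := H j hj 2 (by omega)
    simp only [decide_eq_decide] at e1 e2
    have two : ∀ (z : Sym2 V) a b c, a ∈ z → b ∈ z → c ∈ z → a = b ∨ b = c ∨ a = c := fun z => by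
      induction z using Sym2.ind; simp only [Sym2.mem_iff]; grind
    have y01 : y0 = y1 := by have := two _ _ _ _ b0 b1 hL; grind
    have y12 : y1 = y2 := by have := two _ _ _ _ b1 b2 hL; grind
    subst y01 y12
    rcases two _ _ _ _ a0 a1 a2 with h | h | h <;> subst h
    · have := hψ _ (by omega) _ (by omega) (c0.trans c1.symm); omega
    · have := hψ _ (by omega) _ (by omega) (c1.trans c2.symm); omega
    · have := hψ _ (by omega) _ (by omega) (c0.trans c2.symm); omega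

theorem result : NPHard Realisable :=
  NPHard.of_nae (fun φ => ⟨red φ, valid φ⟩) (PT.subtype (by unfold red sq vr T3.vars; fun_prop) valid) key

end Pool.Agent.Results.MP_a6fa5c_lc.Hard
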